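import Pool.Agent.Helper65.Gen3.Goals
import Pool.Agent.Helper78.Avg.Parseval

set_option autoImplicit false

open Finset
open Pool.Agent.Helper65.Gen3

namespace Pool.Agent.Helper86.Gen3

/-- Markov's inequality -/
theorem card_bad (h : MOM_stmt) {k n p : ℕ} (hk : 0 < k) (hp : p.Prime) (hp2 : 2 < p)
    (hn : 2 ^ n < p) (f : ℕ → ℕ) (W : ℕ) :
    ((range (p ^ (2 * k))).filter fun s =>
      (W : ℤ) < ((2 : ℤ) ^ n - 2 * (dis p (2 * k) f n s : ℤ)) ^ (2 * k)).card * W ≤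
      (2 * k) ^ (2 * k + 1) * p ^ (2 * k) * 2 ^ (k * n) := by
  have h0 : ((((range (p ^ (2 * k))).filter fun s =>
      (W : ℤ) < ((2 : ℤ) ^ n - 2 * (dis p (2 * k) f n s : ℤ)) ^ (2 * k)).card * W : ℕ) : ℤ) ≤
      (2 * k) ^ (2 * k + 1) * p ^ (2 * k) * 2 ^ (k * n) := by
    refine le_trans ?_ (h k n p hk hp hp2 hn f)
    rw [Nat.cast_mul, ← nsmul_eq_mul]
    calc _ ≤ ∑ s ∈ (range (p ^ (2 * k))).filter fun s =>
            (W : ℤ) < ((2 : ℤ) ^ n - 2 * (dis p (2 * k) f n s : ℤ)) ^ (2 * k),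
          ((2 : ℤ) ^ n - 2 * (dis p (2 * k) f n s : ℤ)) ^ (2 * k) :=
          card_nsmul_le_sum _ _ _ fun s hs => (mem_filter.1 hs).2.le
      _ ≤ _ := sum_le_sum_of_subset_of_nonneg (filter_subset _ _) fun s _ _ =>
          (even_two_mul k).pow_nonneg _
  exact_mod_cast h0

/-- the reciprocal squares -/
noncomputable def gg (m : ℕ) : ℝ := 1 / ((m : ℝ) + 1) ^ 2

/-- GOOD -/
theorem good (h : MOM_stmt) : GOOD_stmt := by
  intro k n p hk hp hp2 hn f
  by_contra hno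
  push Not at hno
  let B : ℕ → ℕ → Finset ℕ := fun e a =>
    (range (p ^ (2 * k))).filter fun s =>
      (wt k n e a : ℤ) < ((2 : ℤ) ^ n - 2 * (dis p (2 * k) (f e a) n s : ℤ)) ^ (2 * k)
  have h1 : range (p ^ (2 * k)) ⊆ (range (n + 1)).biUnion fun e =>
      (range (2 ^ (k * n + 1))).biUnion fun a => B e a := by
    intro s hs
    obtain ⟨e, he, a, ha, hb⟩ := hno s (mem_range.1 hs)
    exact mem_biUnion.2 ⟨e, mem_range.2 he, mem_biUnion.2 ⟨a, mem_range.2 ha,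
      mem_filter.2 ⟨hs, hb⟩⟩⟩
  have h2 : p ^ (2 * k) ≤ ∑ e ∈ range (n + 1), ∑ a ∈ range (2 ^ (k * n + 1)), (B e a).card := by
    calc p ^ (2 * k) = (range (p ^ (2 * k))).card := (card_range _).symm
      _ ≤ _ := card_le_card h1
      _ ≤ ∑ e ∈ range (n + 1), ((range (2 ^ (k * n + 1))).biUnion fun a => B e a).card :=
        card_biUnion_le
      _ ≤ _ := sum_le_sum fun e _ => card_biUnion_le
  have hpp : (0 : ℝ) < (p : ℝ) ^ (2 * k) := by
    have : (0 : ℝ) < (p : ℝ) := by exact_mod_cast hp.pos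
    positivity
  have hkk : (0 : ℝ) < (2 * (k : ℝ)) ^ (2 * k + 1) := by
    have : (0 : ℝ) < (k : ℝ) := by exact_mod_cast hk
    positivity
  have h3 : ∀ e a, ((B e a).card : ℝ) ≤
      (p : ℝ) ^ (2 * k) / 16 * (1 / 4 ^ e) * (gg (Nat.log 2 a) / 2 ^ Nat.log 2 a) := by
    intro e a
    have h4 : ((B e a).card : ℝ) * (wt k n e a : ℝ) ≤
        (2 * (k : ℝ)) ^ (2 * k + 1) * (p : ℝ) ^ (2 * k) * 2 ^ (k * n) := by
      have h' : (B e a).card * wt k n e a ≤ (2 * k) ^ (2 * k + 1) * p ^ (2 * k) * 2 ^ (k * n) :=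
        card_bad h hk hp hp2 hn (f e a) (wt k n e a)
      exact_mod_cast h'
    have h5 : (wt k n e a : ℝ) = (2 * (k : ℝ)) ^ (2 * k + 1) * ((Nat.log 2 a : ℝ) + 1) ^ 2 *
        (2 ^ (k * n) * 2 ^ Nat.log 2 a * 4 ^ e * 16) := by
      have e1 : (2 : ℝ) ^ (k * n + Nat.log 2 a + 2 * e + 4) =
          2 ^ (k * n) * 2 ^ Nat.log 2 a * 4 ^ e * 16 := by
        rw [pow_add, pow_add, pow_add, pow_mul (2 : ℝ) 2 e]
        norm_num
      unfold wt
      push_cast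
      rw [e1]
    have h6 : (0 : ℝ) < (2 * (k : ℝ)) ^ (2 * k + 1) * ((Nat.log 2 a : ℝ) + 1) ^ 2 *
        (2 ^ (k * n) * 2 ^ Nat.log 2 a * 4 ^ e * 16) := by positivity
    rw [h5, ← le_div_iff₀ h6] at h4
    refine h4.trans (le_of_eq ?_)
    unfold gg
    field_simp
  have h4 : (p : ℝ) ^ (2 * k) ≤
      ∑ e ∈ range (n + 1), ∑ a ∈ range (2 ^ (k * n + 1)), ((B e a).card : ℝ) := by
    exact_mod_cast h2
  have h5 : ∑ e ∈ range (n + 1), ∑ a ∈ range (2 ^ (k * n + 1)), ((B e a).card : ℝ) ≤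
      (p : ℝ) ^ (2 * k) / 16 * (4 / 3) * 3 := by
    calc _ ≤ ∑ e ∈ range (n + 1), ∑ a ∈ range (2 ^ (k * n + 1)),
          (p : ℝ) ^ (2 * k) / 16 * (1 / 4 ^ e) * (gg (Nat.log 2 a) / 2 ^ Nat.log 2 a) :=
          sum_le_sum fun e _ => sum_le_sum fun a _ => h3 e a
      _ = (p : ℝ) ^ (2 * k) / 16 * (∑ e ∈ range (n + 1), (1 : ℝ) / 4 ^ e) *
          ∑ a ∈ range (2 ^ (k * n + 1)), (gg (Nat.log 2 a) / 2 ^ Nat.log 2 a) := by
          rw [mul_sum (range (n + 1)) _ ((p : ℝ) ^ (2 * k) / 16), sum_mul_sum]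
      _ ≤ (p : ℝ) ^ (2 * k) / 16 * (4 / 3) * 3 := by
          refine mul_le_mul (mul_le_mul_of_nonneg_left
            (Pool.Agent.Helper78.Avg.sum_four _) (by positivity)) ?_
            (sum_nonneg fun a _ => by
              unfold gg
              positivity) (by positivity)
          rw [Pool.Agent.Helper78.Avg.sum_adv gg (k * n + 1)]
          have h7 := Pool.Agent.Helper78.Avg.sum_inv_sq (k * n)
          have h8 : (0 : ℝ) ≤ 1 / (((k * n : ℕ) : ℝ) + 1) := by positivity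
          have h9 : gg 0 = 1 := by
            unfold gg
            norm_num
          have h10 : ∑ m ∈ range (k * n + 1), gg m =
              ∑ m ∈ range (k * n + 1), (1 : ℝ) / ((m : ℝ) + 1) ^ 2 := rfl
          rw [h9, h10]
          linarith
  linarith

end Pool.Agent.Helper86.Gen3
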